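import Mathlib

/-!
# Maximum-likelihood DPP kernels can have rank larger than every training set

Training set on the ground set of three elements: the three pairs, each once, and the empty set
three times.  Every member has at most `k = 2` elements.  The kernel `(1/3) I` has likelihood
`(16/729)^3`, while every marginal kernel of rank at most two has likelihood at most `(1/48)^3`,
which is smaller.  Hence every maximum-likelihood kernel has rank three.
-/

namespace Pool.Agent.Results.MP_dbbe21_pr.OptimalRankTooLarge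

open Matrix Finset

/-- A marginal kernel: a real symmetric positive semidefinite matrix `K` all of whose eigenvalues
are at most one, that is, with `1 - K` positive semidefinite. -/
def IsMarginalKernel {N : ℕ} (K : Matrix (Fin N) (Fin N) ℝ) : Prop :=
  K.PosSemidef ∧ (1 - K).PosSemidef

/-- The principal minor `det (K_S)`, equal to the inclusion probability `Pr[S ⊆ X]` of the
determinantal point process with kernel `K`. -/
noncomputable def inclProb {N : ℕ} (K : Matrix (Fin N) (Fin N) ℝ) (S : Finset (Fin N)) : ℝ :=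
  (K.submatrix (fun i : S => (i : Fin N)) (fun i : S => (i : Fin N))).det

/-- The probability `Pr[X = S]` of the determinantal point process with kernel `K`, obtained from
the inclusion probabilities by inclusion-exclusion. -/
noncomputable def dppProb {N : ℕ} (K : Matrix (Fin N) (Fin N) ℝ) (S : Finset (Fin N)) : ℝ :=
  ∑ T ∈ Finset.univ.filter (fun T => S ⊆ T), (-1 : ℝ) ^ (T.card - S.card) * inclProb K T

/-- The likelihood of the kernel `K` on the training set `X 0, ..., X (m-1)`. -/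
noncomputable def likelihood {N m : ℕ} (X : Fin m → Finset (Fin N))
    (K : Matrix (Fin N) (Fin N) ℝ) : ℝ :=
  ∏ t, dppProb K (X t)

/-- `K` is an optimal (maximum-likelihood) marginal kernel for the training set `X`. -/
def IsOptimal {N m : ℕ} (X : Fin m → Finset (Fin N)) (K : Matrix (Fin N) (Fin N) ℝ) : Prop :=
  IsMarginalKernel K ∧ ∀ K' : Matrix (Fin N) (Fin N) ℝ, IsMarginalKernel K' →
    likelihood X K' ≤ likelihood X K

/-- Sanity check: the numbers `dppProb K T` have the inclusion probabilities `det (K_S)`. -/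
theorem sum_dppProb {N : ℕ} (K : Matrix (Fin N) (Fin N) ℝ) (S : Finset (Fin N)) :
    ∑ T ∈ Finset.univ.filter (fun T => S ⊆ T), dppProb K T = inclProb K S := by
  classical
  unfold dppProb
  rw [Finset.sum_sigma']
  have h1 : ∑ x ∈ (Finset.univ.filter (fun T : Finset (Fin N) => S ⊆ T)).sigma
        (fun T => Finset.univ.filter (fun U => T ⊆ U)),
        (-1 : ℝ) ^ (x.2.card - x.1.card) * inclProb K x.2
      = ∑ x ∈ (Finset.univ.filter (fun U : Finset (Fin N) => S ⊆ U)).sigma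
        (fun U => U.powerset.filter (fun T => S ⊆ T)),
        (-1 : ℝ) ^ (x.1.card - x.2.card) * inclProb K x.1 := by
    refine Finset.sum_bij' (fun x _ => ⟨x.2, x.1⟩) (fun x _ => ⟨x.2, x.1⟩) ?_ ?_ ?_ ?_ ?_
    · rintro ⟨T, U⟩ h
      simp only [Finset.mem_sigma, Finset.mem_filter, Finset.mem_univ, true_and,
        Finset.mem_powerset] at h ⊢
      exact ⟨h.1.trans h.2, h.2, h.1⟩
    · rintro ⟨U, T⟩ h
      simp only [Finset.mem_sigma, Finset.mem_filter, Finset.mem_univ, true_and,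
        Finset.mem_powerset] at h ⊢
      exact ⟨h.2.2, h.2.1⟩
    · intros; rfl
    · intros; rfl
    · intros; rfl
  rw [h1, Finset.sum_sigma]
  have h2 : ∀ U ∈ Finset.univ.filter (fun U : Finset (Fin N) => S ⊆ U),
      ∑ T ∈ U.powerset.filter (fun T => S ⊆ T), (-1 : ℝ) ^ (U.card - T.card) * inclProb K U
        = if U = S then inclProb K S else 0 := by
    intro U hU
    have hSU : S ⊆ U := (Finset.mem_filter.mp hU).2
    rw [← Finset.sum_mul]
    have h3 : ∑ T ∈ U.powerset.filter (fun T => S ⊆ T), (-1 : ℝ) ^ (U.card - T.card)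
        = ∑ V ∈ (U \ S).powerset, (-1 : ℝ) ^ V.card := by
      refine Finset.sum_bij' (fun T _ => U \ T) (fun V _ => U \ V) ?_ ?_ ?_ ?_ ?_
      · intro T hT
        simp only [Finset.mem_filter, Finset.mem_powerset] at hT ⊢
        exact Finset.sdiff_subset_sdiff (le_refl _) hT.2
      · intro V hV
        simp only [Finset.mem_filter, Finset.mem_powerset] at hV ⊢
        refine ⟨Finset.sdiff_subset, ?_⟩
        intro x hx
        rw [Finset.mem_sdiff]
        refine ⟨hSU hx, fun hxV => ?_⟩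
        exact (Finset.mem_sdiff.mp (hV hxV)).2 hx
      · intro T hT
        simp only [Finset.mem_filter, Finset.mem_powerset] at hT
        simp [Finset.inter_eq_right.mpr hT.1]
      · intro V hV
        simp only [Finset.mem_powerset] at hV
        have : V ⊆ U := hV.trans Finset.sdiff_subset
        simp [Finset.inter_eq_right.mpr this]
      · intro T hT
        simp only [Finset.mem_filter, Finset.mem_powerset] at hT
        rw [Finset.card_sdiff_of_subset hT.1]
    rw [h3]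
    have h4 := Finset.sum_powerset_neg_one_pow_card (x := U \ S)
    have h5 : ∑ V ∈ (U \ S).powerset, (-1 : ℝ) ^ V.card = if U \ S = ∅ then 1 else 0 := by
      exact_mod_cast congrArg (fun z : ℤ => (z : ℝ)) h4
    rw [h5]
    by_cases hUS : U = S
    · subst hUS; simp
    · rw [if_neg hUS, if_neg]
      · simp
      · intro h
        exact hUS (Finset.Subset.antisymm (Finset.sdiff_eq_empty_iff_subset.mp h) hSU)
  rw [Finset.sum_congr rfl h2]
  rw [Finset.sum_ite_eq' (Finset.univ.filter (fun U : Finset (Fin N) => S ⊆ U)) S]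
  simp

lemma inclProb_eq {N n : ℕ} (K : Matrix (Fin N) (Fin N) ℝ) (S : Finset (Fin N))
    (f : Fin n → Fin N) (hf : Function.Injective f) (hS : Finset.univ.image f = S) :
    inclProb K S = (K.submatrix f f).det := by
  subst hS
  let e : Fin n ≃ (Finset.univ.image f : Finset (Fin N)) :=
    Equiv.ofBijective (fun i => ⟨f i, Finset.mem_image_of_mem f (Finset.mem_univ i)⟩)
      ⟨fun i j h => hf (by simpa using h), fun ⟨y, hy⟩ => by
        obtain ⟨i, _, hi⟩ := Finset.mem_image.mp hy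
        exact ⟨i, by simp [hi]⟩⟩
  rw [inclProb, ← Matrix.det_submatrix_equiv_self e]
  rfl

/-- The training set. -/
def X0 : Fin 6 → Finset (Fin 3) := ![{0, 1}, {0, 2}, {1, 2}, ∅, ∅, ∅]

section entries

variable (K : Matrix (Fin 3) (Fin 3) ℝ)

lemma incl_empty : inclProb K ∅ = 1 := by
  simp [inclProb]

lemma incl_0 : inclProb K {0} = K 0 0 := by
  rw [inclProb_eq K {0} ![0] (by decide) (by decide), Matrix.det_fin_one]
  simp

lemma incl_1 : inclProb K {1} = K 1 1 := by
  rw [inclProb_eq K {1} ![1] (by decide) (by decide), Matrix.det_fin_one]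
  simp

lemma incl_2 : inclProb K {2} = K 2 2 := by
  rw [inclProb_eq K {2} ![2] (by decide) (by decide), Matrix.det_fin_one]
  simp

lemma incl_01 : inclProb K {0, 1} = K 0 0 * K 1 1 - K 0 1 * K 1 0 := by
  rw [inclProb_eq K {0, 1} ![0, 1] (by decide) (by decide), Matrix.det_fin_two]
  simp

lemma incl_02 : inclProb K {0, 2} = K 0 0 * K 2 2 - K 0 2 * K 2 0 := by
  rw [inclProb_eq K {0, 2} ![0, 2] (by decide) (by decide), Matrix.det_fin_two]
  simp

lemma incl_12 : inclProb K {1, 2} = K 1 1 * K 2 2 - K 1 2 * K 2 1 := by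
  rw [inclProb_eq K {1, 2} ![1, 2] (by decide) (by decide), Matrix.det_fin_two]
  simp

lemma incl_012 : inclProb K {0, 1, 2} = K.det := by
  rw [inclProb_eq K {0, 1, 2} ![0, 1, 2] (by decide) (by decide)]
  congr 1
  ext i j
  fin_cases i <;> fin_cases j <;> rfl

lemma dpp_empty : dppProb K ∅ = 1 - K 0 0 - K 1 1 - K 2 2
    + (K 0 0 * K 1 1 - K 0 1 * K 1 0) + (K 0 0 * K 2 2 - K 0 2 * K 2 0)
    + (K 1 1 * K 2 2 - K 1 2 * K 2 1) - K.det := by
  have h : (Finset.univ.filter (fun T : Finset (Fin 3) => ∅ ⊆ T))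
      = {∅, {0}, {1}, {2}, {0, 1}, {0, 2}, {1, 2}, {0, 1, 2}} := by decide
  rw [dppProb, h]
  rw [Finset.sum_insert (by decide), Finset.sum_insert (by decide), Finset.sum_insert (by decide),
    Finset.sum_insert (by decide), Finset.sum_insert (by decide), Finset.sum_insert (by decide),
    Finset.sum_insert (by decide), Finset.sum_singleton]
  rw [incl_empty, incl_0, incl_1, incl_2, incl_01, incl_02, incl_12, incl_012]
  have c1 : ({0, 1} : Finset (Fin 3)).card = 2 := by decide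
  have c2 : ({0, 2} : Finset (Fin 3)).card = 2 := by decide
  have c3 : ({1, 2} : Finset (Fin 3)).card = 2 := by decide
  have c4 : ({0, 1, 2} : Finset (Fin 3)).card = 3 := by decide
  rw [c1, c2, c3, c4]
  simp only [Finset.card_empty, Finset.card_singleton]
  norm_num
  ring

lemma dpp_01 : dppProb K {0, 1} = (K 0 0 * K 1 1 - K 0 1 * K 1 0) - K.det := by
  have h : (Finset.univ.filter (fun T : Finset (Fin 3) => {0, 1} ⊆ T))
      = {{0, 1}, {0, 1, 2}} := by decide
  rw [dppProb, h]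
  rw [Finset.sum_insert (by decide), Finset.sum_singleton]
  rw [incl_01, incl_012]
  have c1 : ({0, 1} : Finset (Fin 3)).card = 2 := by decide
  have c4 : ({0, 1, 2} : Finset (Fin 3)).card = 3 := by decide
  rw [c1, c4]
  norm_num
  ring

lemma dpp_02 : dppProb K {0, 2} = (K 0 0 * K 2 2 - K 0 2 * K 2 0) - K.det := by
  have h : (Finset.univ.filter (fun T : Finset (Fin 3) => {0, 2} ⊆ T))
      = {{0, 2}, {0, 1, 2}} := by decide
  rw [dppProb, h]
  rw [Finset.sum_insert (by decide), Finset.sum_singleton]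
  rw [incl_02, incl_012]
  have c1 : ({0, 2} : Finset (Fin 3)).card = 2 := by decide
  have c4 : ({0, 1, 2} : Finset (Fin 3)).card = 3 := by decide
  rw [c1, c4]
  norm_num
  ring

lemma dpp_12 : dppProb K {1, 2} = (K 1 1 * K 2 2 - K 1 2 * K 2 1) - K.det := by
  have h : (Finset.univ.filter (fun T : Finset (Fin 3) => {1, 2} ⊆ T))
      = {{1, 2}, {0, 1, 2}} := by decide
  rw [dppProb, h]
  rw [Finset.sum_insert (by decide), Finset.sum_singleton]
  rw [incl_12, incl_012]
  have c1 : ({1, 2} : Finset (Fin 3)).card = 2 := by decide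
  have c4 : ({0, 1, 2} : Finset (Fin 3)).card = 3 := by decide
  rw [c1, c4]
  norm_num
  ring

lemma likelihood_X0 : likelihood X0 K = dppProb K {0, 1} * dppProb K {0, 2} * dppProb K {1, 2}
    * dppProb K ∅ ^ 3 := by
  rw [likelihood, Fin.prod_univ_six]
  simp only [X0]
  simp
  ring

end entries

/-! ### The scalar inequality -/

lemma heron {A B C : ℝ} (hA : 0 ≤ A) (hB : 0 ≤ B) (hC : 0 ≤ C)
    (h : 4 * A * B * (1 - C) = (A + B - C) ^ 2) : 64 * (A * B * C) ≤ 27 := by
  rcases eq_or_lt_of_le (mul_nonneg hA hB) with h0 | h0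
  · rw [← h0]; norm_num
  · have hC1 : 0 ≤ 1 - C := by
      by_contra hc
      push Not at hc
      have : 4 * A * B * (1 - C) < 0 := by nlinarith
      nlinarith [sq_nonneg (A + B - C)]
    set g := Real.sqrt (A * B) with hg
    set s := Real.sqrt (1 - C) with hs
    have hg0 : 0 ≤ g := Real.sqrt_nonneg _
    have hs0 : 0 ≤ s := Real.sqrt_nonneg _
    have hg2 : g ^ 2 = A * B := Real.sq_sqrt h0.le
    have hs2 : s ^ 2 = 1 - C := Real.sq_sqrt hC1
    have hs1 : s ≤ 1 := by nlinarith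
    have hAB : 2 * g ≤ A + B := by
      have : (2 * g) ^ 2 ≤ (A + B) ^ 2 := by nlinarith [sq_nonneg (A - B)]
      exact le_of_sq_le_sq' this (by positivity)
    have hle : A + B - C ≤ 2 * g * s := by
      have : (A + B - C) ^ 2 ≤ (2 * g * s) ^ 2 := by
        rw [← h]
        have : (2 * g * s) ^ 2 = 4 * g ^ 2 * s ^ 2 := by ring
        rw [this, hg2, hs2]
        nlinarith
      exact le_of_sq_le_sq' this (by positivity)
    have hCs : C = 1 - s ^ 2 := by linarith
    have h5 : 2 * g * (1 - s) ≤ (1 - s) * (1 + s) := by nlinarith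
    rcases eq_or_lt_of_le hs1 with h1 | h1
    · have : C = 0 := by rw [hCs, h1]; norm_num
      rw [this]; norm_num
    · have h6 : 2 * g ≤ 1 + s := by
        have : 0 < 1 - s := by linarith
        nlinarith
      have h7 : 4 * g ^ 2 ≤ (1 + s) ^ 2 := by nlinarith
      have h8 : 64 * (A * B * C) = 16 * (4 * g ^ 2) * ((1 - s) * (1 + s)) := by
        rw [hg2, hCs]; ring
      have h9 : 0 ≤ (1 - s) * (1 + s) := by nlinarith
      have h10 : 16 * (4 * g ^ 2) * ((1 - s) * (1 + s)) ≤ 16 * (1 + s) ^ 2 * ((1 - s) * (1 + s)) := by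
        nlinarith
      rw [h8]
      refine h10.trans ?_
      nlinarith [sq_nonneg (2 * s - 1), sq_nonneg (s * (2 * s - 1)), mul_nonneg hs0 hs0,
        sq_nonneg (s + 1), mul_nonneg hs0 (sq_nonneg (2 * s - 1)), sq_nonneg ((2 * s - 1) * (s + 1))]
where
  le_of_sq_le_sq' {x y : ℝ} (h : x ^ 2 ≤ y ^ 2) (hy : 0 ≤ y) : x ≤ y := by
    exact le_trans (le_abs_self x) (by
      have := Real.sqrt_le_sqrt h
      rwa [Real.sqrt_sq_eq_abs, Real.sqrt_sq hy] at this)

/-- Weighted AM-GM in twelve variables. -/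
lemma amgm {x₁ x₂ x₃ y₁ y₂ y₃ z : ℝ} (hx1 : 0 ≤ x₁) (hx2 : 0 ≤ x₂) (hx3 : 0 ≤ x₃)
    (hy1 : 0 ≤ y₁) (hy2 : 0 ≤ y₂) (hy3 : 0 ≤ y₃) (hz : 0 ≤ z)
    (hsum : z + y₁ + y₂ + y₃ + x₁ + x₂ + x₃ = 1) :
    z ^ 3 * (y₁ * y₂ * y₃) * (x₁ * x₂ * x₃) ^ 2 * 12 ^ 9 ≤ 1 := by
  have e : ∀ t : ℝ, t ≤ Real.exp (t - 1) := fun t => by
    have := Real.add_one_le_exp (t - 1)
    linarith
  have a1 : (4 * z) ^ 3 ≤ Real.exp (4 * z - 1) ^ 3 :=
    pow_le_pow_left₀ (by positivity) (e _) 3
  have a2 : (6 * x₁) ^ 2 ≤ Real.exp (6 * x₁ - 1) ^ 2 := pow_le_pow_left₀ (by positivity) (e _) 2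
  have a3 : (6 * x₂) ^ 2 ≤ Real.exp (6 * x₂ - 1) ^ 2 := pow_le_pow_left₀ (by positivity) (e _) 2
  have a4 : (6 * x₃) ^ 2 ≤ Real.exp (6 * x₃ - 1) ^ 2 := pow_le_pow_left₀ (by positivity) (e _) 2
  have a5 := e (12 * y₁)
  have a6 := e (12 * y₂)
  have a7 := e (12 * y₃)
  have b1 : (4 * z) ^ 3 * (6 * x₁) ^ 2 * (6 * x₂) ^ 2 * (6 * x₃) ^ 2 * (12 * y₁) * (12 * y₂)
      * (12 * y₃) ≤ Real.exp (4 * z - 1) ^ 3 * Real.exp (6 * x₁ - 1) ^ 2
        * Real.exp (6 * x₂ - 1) ^ 2 * Real.exp (6 * x₃ - 1) ^ 2 * Real.exp (12 * y₁ - 1)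
        * Real.exp (12 * y₂ - 1) * Real.exp (12 * y₃ - 1) := by
    gcongr
  have b2 : Real.exp (4 * z - 1) ^ 3 * Real.exp (6 * x₁ - 1) ^ 2
        * Real.exp (6 * x₂ - 1) ^ 2 * Real.exp (6 * x₃ - 1) ^ 2 * Real.exp (12 * y₁ - 1)
        * Real.exp (12 * y₂ - 1) * Real.exp (12 * y₃ - 1) = 1 := by
    rw [← Real.exp_nat_mul, ← Real.exp_nat_mul, ← Real.exp_nat_mul, ← Real.exp_nat_mul,
      ← Real.exp_add, ← Real.exp_add, ← Real.exp_add, ← Real.exp_add, ← Real.exp_add,
      ← Real.exp_add, Real.exp_eq_one_iff]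
    push_cast
    linarith
  rw [b2] at b1
  refine le_trans (le_of_eq ?_) b1
  ring

/-- The core inequality for point probabilities of a singular kernel. -/
lemma core {x₁ x₂ x₃ y₁₂ y₁₃ y₂₃ z p q r : ℝ} (hx1 : 0 ≤ x₁) (hx2 : 0 ≤ x₂) (hx3 : 0 ≤ x₃)
    (hy1 : 0 ≤ y₁₂) (hy2 : 0 ≤ y₁₃) (hy3 : 0 ≤ y₂₃) (hz : 0 ≤ z)
    (hsum : z + y₁₂ + y₁₃ + y₂₃ + x₁ + x₂ + x₃ = 1)
    (hp : x₁ * x₂ - p ^ 2 = z * y₁₂) (hq : x₁ * x₃ - q ^ 2 = z * y₁₃)
    (hr : x₂ * x₃ - r ^ 2 = z * y₂₃)
    (hdet : x₁ * x₂ * x₃ + 2 * p * q * r - x₁ * r ^ 2 - x₂ * q ^ 2 - x₃ * p ^ 2 = 0) :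
    y₁₂ * y₁₃ * y₂₃ * z ^ 3 ≤ 1 / 48 ^ 3 := by
  set Q := y₁₂ * y₁₃ * y₂₃ * z ^ 3 with hQ
  have hQ0 : 0 ≤ Q := by positivity
  rcases eq_or_lt_of_le hQ0 with h0 | hQpos
  · rw [← h0]; positivity
  -- all quantities are positive
  have hzpos : 0 < z := by
    rcases eq_or_lt_of_le hz with h | h
    · exfalso; rw [hQ, ← h] at hQpos; simp at hQpos
    · exact h
  have hy1pos : 0 < y₁₂ := by
    rcases eq_or_lt_of_le hy1 with h | h
    · exfalso; rw [hQ, ← h] at hQpos; simp at hQpos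
    · exact h
  have hy3pos : 0 < y₂₃ := by
    rcases eq_or_lt_of_le hy3 with h | h
    · exfalso; rw [hQ, ← h] at hQpos; simp at hQpos
    · exact h
  have h12 : 0 < x₁ * x₂ := by nlinarith [mul_pos hzpos hy1pos, sq_nonneg p]
  have h23 : 0 < x₂ * x₃ := by nlinarith [mul_pos hzpos hy3pos, sq_nonneg r]
  have hx1pos : 0 < x₁ := lt_of_le_of_ne hx1 (fun h => by rw [← h] at h12; simp at h12)
  have hx2pos : 0 < x₂ := lt_of_le_of_ne hx2 (fun h => by rw [← h] at h12; simp at h12)
  have hx3pos : 0 < x₃ := lt_of_le_of_ne hx3 (fun h => by rw [← h] at h23; simp at h23)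
  set A := z * y₁₂ / (x₁ * x₂) with hA
  set B := z * y₁₃ / (x₁ * x₃) with hB
  set C := z * y₂₃ / (x₂ * x₃) with hC
  have hA0 : 0 ≤ A := by positivity
  have hB0 : 0 ≤ B := by positivity
  have hC0 : 0 ≤ C := by positivity
  have hA' : z * y₁₂ = A * (x₁ * x₂) := by rw [hA]; field_simp
  have hB' : z * y₁₃ = B * (x₁ * x₃) := by rw [hB]; field_simp
  have hC' : z * y₂₃ = C * (x₂ * x₃) := by rw [hC]; field_simp
  have hp2 : p ^ 2 = x₁ * x₂ * (1 - A) := by rw [hA'] at hp; linarith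
  have hq2 : q ^ 2 = x₁ * x₃ * (1 - B) := by rw [hB'] at hq; linarith
  have hr2 : r ^ 2 = x₂ * x₃ * (1 - C) := by rw [hC'] at hr; linarith
  have hkey : 4 * A * B * (1 - C) = (A + B - C) ^ 2 := by
    have h1 : 2 * (p * q * r) = x₁ * x₂ * x₃ * (2 - A - B - C) := by
      have : 2 * (p * q * r) = x₁ * r ^ 2 + x₂ * q ^ 2 + x₃ * p ^ 2 - x₁ * x₂ * x₃ := by linarith
      rw [this, hp2, hq2, hr2]; ring
    have h2 : 4 * (p ^ 2 * q ^ 2 * r ^ 2) = (x₁ * x₂ * x₃) ^ 2 * (2 - A - B - C) ^ 2 := by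
      have : 4 * (p ^ 2 * q ^ 2 * r ^ 2) = (2 * (p * q * r)) ^ 2 := by ring
      rw [this, h1]; ring
    rw [hp2, hq2, hr2] at h2
    have h3 : (x₁ * x₂ * x₃) ^ 2 * (4 * ((1 - A) * (1 - B) * (1 - C)))
        = (x₁ * x₂ * x₃) ^ 2 * (2 - A - B - C) ^ 2 := by
      rw [← h2]; ring
    have h4 : (x₁ * x₂ * x₃) ^ 2 ≠ 0 := by positivity
    have h5 := mul_left_cancel₀ h4 h3
    linear_combination h5
  have hheron := heron hA0 hB0 hC0 hkey
  have hQ1 : Q = A * B * C * (x₁ * x₂ * x₃) ^ 2 := by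
    have : Q = (z * y₁₂) * (z * y₁₃) * (z * y₂₃) := by rw [hQ]; ring
    rw [this, hA', hB', hC']; ring
  have hQ2 : 64 * Q ≤ 27 * (x₁ * x₂ * x₃) ^ 2 := by
    rw [hQ1]
    have h1 : 0 ≤ (x₁ * x₂ * x₃) ^ 2 := sq_nonneg _
    have h2 := mul_le_mul_of_nonneg_right hheron h1
    linarith
  have hag := amgm hx1 hx2 hx3 hy1 hy2 hy3 hz hsum
  have hag' : Q * (x₁ * x₂ * x₃) ^ 2 * 12 ^ 9 ≤ 1 := by
    refine le_trans (le_of_eq ?_) hag
    rw [hQ]; ring
  have hQQ : Q * Q * 64 * 12 ^ 9 ≤ 27 := by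
    have h1 : Q * (64 * Q) ≤ Q * (27 * (x₁ * x₂ * x₃) ^ 2) := mul_le_mul_of_nonneg_left hQ2 hQ0
    clear_value Q A B C
    have h2 : Q * Q * 64 * 12 ^ 9 = (Q * (64 * Q)) * 12 ^ 9 := by ring
    have h3 : 27 * (Q * (x₁ * x₂ * x₃) ^ 2 * 12 ^ 9) = (Q * (27 * (x₁ * x₂ * x₃) ^ 2)) * 12 ^ 9 := by
      ring
    rw [h2]
    refine le_trans (mul_le_mul_of_nonneg_right h1 (by positivity)) ?_
    rw [← h3]
    linarith
  by_contra hcon
  push Not at hcon
  have : (1 / 48 ^ 3 : ℝ) * (1 / 48 ^ 3) < Q * Q := by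
    apply mul_lt_mul'' hcon hcon <;> positivity
  norm_num at this hQQ
  linarith

/-! ### Facts on marginal kernels -/

lemma quad {K : Matrix (Fin 3) (Fin 3) ℝ} (h : K.PosSemidef) (x y w : ℝ) :
    0 ≤ K 0 0 * x ^ 2 + K 1 1 * y ^ 2 + K 2 2 * w ^ 2 + (K 0 1 + K 1 0) * (x * y)
      + (K 0 2 + K 2 0) * (x * w) + (K 1 2 + K 2 1) * (y * w) := by
  have := h.dotProduct_mulVec_nonneg ![x, y, w]
  simp [dotProduct, Matrix.mulVec, Fin.sum_univ_three] at this
  nlinarith

lemma minor_nonneg {K : Matrix (Fin 3) (Fin 3) ℝ} (h : K.PosSemidef) (i j : Fin 3) :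
    0 ≤ K i i * K j j - K i j * K j i := by
  have h1 := (h.submatrix ![i, j]).det_nonneg
  rw [Matrix.det_fin_two] at h1
  simpa using h1

lemma bound_of_rank_le {K : Matrix (Fin 3) (Fin 3) ℝ} (hK : IsMarginalKernel K)
    (hr : K.rank ≤ 2) : likelihood X0 K ≤ 1 / 48 ^ 3 := by
  have hdet : K.det = 0 := by
    by_contra hne
    have hu : IsUnit K := by
      rw [Matrix.isUnit_iff_isUnit_det]
      exact isUnit_iff_ne_zero.mpr hne
    have := Matrix.rank_of_isUnit K hu
    simp at this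
    omega
  have hs10 : K 1 0 = K 0 1 := by simpa using hK.1.1.apply 0 1
  have hs20 : K 2 0 = K 0 2 := by simpa using hK.1.1.apply 0 2
  have hs21 : K 2 1 = K 1 2 := by simpa using hK.1.1.apply 1 2
  have hd := hdet
  rw [Matrix.det_fin_three, hs10, hs20, hs21] at hd
  have hM := hK.2
  have m01 := minor_nonneg hM 0 1
  have m02 := minor_nonneg hM 0 2
  have m12 := minor_nonneg hM 1 2
  have k01 := minor_nonneg hK.1 0 1
  have k02 := minor_nonneg hK.1 0 2
  have k12 := minor_nonneg hK.1 1 2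
  have a0 : 0 ≤ K 0 0 := by have := quad hK.1 1 0 0; simpa using this
  have b0 : 0 ≤ K 1 1 := by have := quad hK.1 0 1 0; simpa using this
  have c0 : 0 ≤ K 2 2 := by have := quad hK.1 0 0 1; simpa using this
  have hdM := hM.det_nonneg
  rw [Matrix.det_fin_three] at hdM
  have q1 := quad hM 0 (K 0 2) (-(K 0 1))
  have q2 := quad hM (K 1 2) 0 (-(K 0 1))
  have q3 := quad hM (K 1 2) (-(K 0 2)) 0
  have o00 : (1 - K) 0 0 = 1 - K 0 0 := by simp
  have o11 : (1 - K) 1 1 = 1 - K 1 1 := by simp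
  have o22 : (1 - K) 2 2 = 1 - K 2 2 := by simp
  have o01 : (1 - K) 0 1 = -K 0 1 := by
    rw [Matrix.sub_apply, Matrix.one_apply_ne (by decide), zero_sub]
  have o10 : (1 - K) 1 0 = -K 0 1 := by
    rw [Matrix.sub_apply, Matrix.one_apply_ne (by decide), zero_sub, hs10]
  have o02 : (1 - K) 0 2 = -K 0 2 := by
    rw [Matrix.sub_apply, Matrix.one_apply_ne (by decide), zero_sub]
  have o20 : (1 - K) 2 0 = -K 0 2 := by
    rw [Matrix.sub_apply, Matrix.one_apply_ne (by decide), zero_sub, hs20]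
  have o12 : (1 - K) 1 2 = -K 1 2 := by
    rw [Matrix.sub_apply, Matrix.one_apply_ne (by decide), zero_sub]
  have o21 : (1 - K) 2 1 = -K 1 2 := by
    rw [Matrix.sub_apply, Matrix.one_apply_ne (by decide), zero_sub, hs21]
  rw [o00, o11, o01, o10] at m01
  rw [o00, o22, o02, o20] at m02
  rw [o11, o22, o12, o21] at m12
  rw [o00, o11, o22, o01, o10, o02, o20, o12, o21] at hdM q1 q2 q3
  rw [hs10] at k01
  rw [hs20] at k02
  rw [hs21] at k12
  rw [likelihood_X0, dpp_01, dpp_02, dpp_12, dpp_empty, hdet, hs10, hs20, hs21]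
  generalize K 0 0 = a at *
  generalize K 1 1 = b at *
  generalize K 2 2 = c at *
  generalize K 0 1 = d at *
  generalize K 0 2 = e at *
  generalize K 1 2 = f at *
  refine core (x₁ := a - (a * b - d * d) - (a * c - e * e))
    (x₂ := b - (a * b - d * d) - (b * c - f * f))
    (x₃ := c - (a * c - e * e) - (b * c - f * f))
    (p := e * f + d * (1 - c)) (q := d * f + e * (1 - b)) (r := d * e + f * (1 - a))
    ?_ ?_ ?_ ?_ ?_ ?_ ?_ ?_ ?_ ?_ ?_ ?_
  · nlinarith [mul_nonneg a0 m12]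
  · nlinarith [mul_nonneg b0 m02]
  · nlinarith [mul_nonneg c0 m01]
  · linarith
  · linarith
  · linarith
  · linarith
  · ring
  · linear_combination (c - 1) * hd
  · linear_combination (b - 1) * hd
  · linear_combination (a - 1) * hd
  · linear_combination ((1 - a - b - c + (a * b - d * d) + (a * c - e * e) + (b * c - f * f)
      - (a * b * c - a * f * f - d * d * c + d * f * e + e * d * f - e * b * e)) ^ 2
      - (1 - a - b - c + (a * b - d * d) + (a * c - e * e) + (b * c - f * f)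
      - (a * b * c - a * f * f - d * d * c + d * f * e + e * d * f - e * b * e))
      * ((a * b - d * d) + (a * c - e * e) + (b * c - f * f)
        - 3 * (a * b * c - a * f * f - d * d * c + d * f * e + e * d * f - e * b * e))
      + (a * b * c - a * f * f - d * d * c + d * f * e + e * d * f - e * b * e)
      * (a + b + c - 2 * ((a * b - d * d) + (a * c - e * e) + (b * c - f * f))
        + 3 * (a * b * c - a * f * f - d * d * c + d * f * e + e * d * f - e * b * e))
      - (a * b * c - a * f * f - d * d * c + d * f * e + e * d * f - e * b * e) ^ 2) * hd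

/-! ### Existence of maximisers -/

lemma isClosed_posSemidef {N : ℕ} : IsClosed {K : Matrix (Fin N) (Fin N) ℝ | K.PosSemidef} := by
  have h : {K : Matrix (Fin N) (Fin N) ℝ | K.PosSemidef}
      = {K | K.conjTranspose = K} ∩ ⋂ x : Fin N → ℝ, {K | 0 ≤ star x ⬝ᵥ (K *ᵥ x)} := by
    ext K
    simp only [Set.mem_ofPred_eq, Set.mem_inter_iff, Set.mem_iInter]
    rw [Matrix.posSemidef_iff_dotProduct_mulVec]
    rfl
  rw [h]
  refine IsClosed.inter ?_ ?_
  · exact isClosed_eq (continuous_id.matrix_conjTranspose) continuous_id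
  · refine isClosed_iInter fun x => isClosed_le continuous_const ?_
    exact Continuous.dotProduct continuous_const
      (Continuous.matrix_mulVec continuous_id continuous_const)

lemma isCompact_marginal {N : ℕ} :
    IsCompact {K : Matrix (Fin N) (Fin N) ℝ | IsMarginalKernel K} := by
  have hbox : IsCompact (Set.pi Set.univ (fun _ : Fin N => Set.pi Set.univ
      (fun _ : Fin N => Set.Icc (-1 : ℝ) 1)) : Set (Fin N → Fin N → ℝ)) :=
    isCompact_univ_pi fun _ => isCompact_univ_pi fun _ => isCompact_Icc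
  refine IsCompact.of_isClosed_subset hbox ?_ ?_
  · have : {K : Matrix (Fin N) (Fin N) ℝ | IsMarginalKernel K}
        = {K | K.PosSemidef} ∩ (fun K => 1 - K) ⁻¹' {K | K.PosSemidef} := rfl
    rw [this]
    refine isClosed_posSemidef.inter (isClosed_posSemidef.preimage ?_)
    exact continuous_const.sub continuous_id
  · intro K hK i _ j _
    have hd : ∀ l, 0 ≤ K l l ∧ K l l ≤ 1 := by
      intro l
      have h1 := hK.1.diag_nonneg (i := l)
      have h2 := hK.2.diag_nonneg (i := l)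
      simp at h2
      exact ⟨h1, h2⟩
    have h1 := (hK.1.submatrix ![i, j]).det_nonneg
    rw [Matrix.det_fin_two] at h1
    simp only [Matrix.submatrix_apply, Matrix.cons_val_zero, Matrix.cons_val_one] at h1
    have hs : K j i = K i j := by simpa using hK.1.1.apply i j
    rw [hs] at h1
    have h2 : K i j ^ 2 ≤ 1 := by nlinarith [hd i, hd j, mul_le_one₀ (hd i).2 (hd j).1 (hd j).2]
    exact abs_le.mp ((sq_le_one_iff_abs_le_one _).mp h2)

lemma continuous_likelihood {N m : ℕ} (X : Fin m → Finset (Fin N)) :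
    Continuous (likelihood X) := by
  unfold likelihood dppProb inclProb
  refine continuous_finsetProd _ fun t _ => continuous_finsetSum _ fun T _ => ?_
  exact continuous_const.mul (Continuous.matrix_det (continuous_id.matrix_submatrix _ _))

/-- A maximum-likelihood kernel exists for every training set. -/
theorem exists_optimal {N m : ℕ} (X : Fin m → Finset (Fin N)) :
    ∃ K : Matrix (Fin N) (Fin N) ℝ, IsOptimal X K := by
  have hne : {K : Matrix (Fin N) (Fin N) ℝ | IsMarginalKernel K}.Nonempty := by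
    refine ⟨1, Matrix.PosSemidef.one, ?_⟩
    rw [sub_self]
    exact Matrix.PosSemidef.zero
  obtain ⟨K, hK, hmax⟩ := isCompact_marginal.exists_isMaxOn hne (continuous_likelihood X).continuousOn
  exact ⟨K, hK, fun K' hK' => hmax hK'⟩

/-- The kernel `(1/3) I`. -/
noncomputable def K0 : Matrix (Fin 3) (Fin 3) ℝ := (1 / 3 : ℝ) • (1 : Matrix (Fin 3) (Fin 3) ℝ)

lemma K0_marginal : IsMarginalKernel K0 := by
  constructor
  · exact Matrix.PosSemidef.one.smul (by norm_num)
  · have : (1 : Matrix (Fin 3) (Fin 3) ℝ) - K0 = (2 / 3 : ℝ) • (1 : Matrix (Fin 3) (Fin 3) ℝ) := by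
      rw [K0]
      nth_rewrite 1 [← one_smul ℝ (1 : Matrix (Fin 3) (Fin 3) ℝ)]
      rw [← sub_smul]
      norm_num
    rw [this]
    exact Matrix.PosSemidef.one.smul (by norm_num)

lemma K0_likelihood : likelihood X0 K0 = (16 / 729) ^ 3 := by
  have hd : K0.det = 1 / 27 := by
    rw [K0, Matrix.det_smul, Matrix.det_one]; norm_num
  have e0 : K0 0 0 = 1 / 3 := by simp [K0]
  have e1 : K0 1 1 = 1 / 3 := by simp [K0]
  have e2 : K0 2 2 = 1 / 3 := by simp [K0]
  have o : ∀ i j : Fin 3, i ≠ j → K0 i j = 0 := by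
    intro i j hij
    simp [K0, Matrix.one_apply_ne hij]
  rw [likelihood_X0, dpp_01, dpp_02, dpp_12, dpp_empty, hd, e0, e1, e2, o 0 1 (by decide),
    o 0 2 (by decide), o 1 2 (by decide)]
  norm_num

/-- There are a number `k ≥ 1`, a ground set and a training set all of whose members have at most
`k` elements such that a maximum-likelihood marginal kernel exists and every maximum-likelihood
marginal kernel has rank greater than `k`. -/
theorem result : ∃ (k N m : ℕ) (X : Fin m → Finset (Fin N)), 1 ≤ k ∧ (∀ t, (X t).card ≤ k) ∧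
    (∃ K : Matrix (Fin N) (Fin N) ℝ, IsOptimal X K) ∧
    ∀ K : Matrix (Fin N) (Fin N) ℝ, IsOptimal X K → k < K.rank := by
  refine ⟨2, 3, 6, X0, by norm_num, by decide, exists_optimal X0, ?_⟩
  intro K hK
  by_contra hcon
  push Not at hcon
  have h1 := bound_of_rank_le hK.1 hcon
  have h2 := hK.2 K0 K0_marginal
  rw [K0_likelihood] at h2
  have h3 := h2.trans h1
  norm_num at h3

end Pool.Agent.Results.MP_dbbe21_pr.OptimalRankTooLarge
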